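import Mathlib
import Pool.Agent.StackQueue.Core

/-!
# Graphs with queue-number at most 3 and arbitrarily large stack-number

The graph is `gridGraph n` below; the combinatorial core of the lower bound on its stack-number
is in `Pool.Agent.StackQueue.Core`.
-/

namespace Pool.Agent.Results.MP_0feef2_co.QueueThree

/-- The (unordered) edges `uv` and `xy` cross with respect to the linear order `L`. -/
def Cross {V : Type*} (L : LinearOrder V) (u v x y : V) : Prop :=
  (L.lt u x ∧ L.lt x v ∧ L.lt v y) ∨ (L.lt x u ∧ L.lt u y ∧ L.lt y v)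

/-- The (unordered) edges `uv` and `xy` nest with respect to the linear order `L`. -/
def Nest {V : Type*} (L : LinearOrder V) (u v x y : V) : Prop :=
  (L.lt u x ∧ L.lt x y ∧ L.lt y v) ∨ (L.lt x u ∧ L.lt u v ∧ L.lt v y)

/-- `G` has a `k`-stack layout. -/
def HasStackLayout {V : Type*} (G : SimpleGraph V) (k : ℕ) : Prop :=
  ∃ (L : LinearOrder V) (σ : G.edgeSet → Fin k),
    ∀ (u v x y : V) (huv : G.Adj u v) (hxy : G.Adj x y),
      σ ⟨s(u, v), huv⟩ = σ ⟨s(x, y), hxy⟩ → ¬ Cross L u v x y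

/-- `G` has a `k`-queue layout. -/
def HasQueueLayout {V : Type*} (G : SimpleGraph V) (k : ℕ) : Prop :=
  ∃ (L : LinearOrder V) (σ : G.edgeSet → Fin k),
    ∀ (u v x y : V) (huv : G.Adj u v) (hxy : G.Adj x y),
      σ ⟨s(u, v), huv⟩ = σ ⟨s(x, y), hxy⟩ → ¬ Nest L u v x y

/-- The stack-number: the least `k` such that `G` has a `k`-stack layout. -/
noncomputable def stackNumber {V : Type*} (G : SimpleGraph V) : ℕ :=
  sInf {k | HasStackLayout G k}

/-- The queue-number: the least `k` such that `G` has a `k`-queue layout. -/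
noncomputable def queueNumber {V : Type*} (G : SimpleGraph V) : ℕ :=
  sInf {k | HasQueueLayout G k}

/-! ## The graph and its layouts -/

open Pool.Agent.StackQueue

/-- The graph on `{0,…,n³-1}` with edges of length
`n, n+1, n², n²+1, n²+n, n²+n+1`. -/
def gridGraph (n : ℕ) : SimpleGraph (Fin (n * n * n)) where
  Adj i j := i ≠ j ∧ (fwd n i j ∨ fwd n j i)
  symm := ⟨fun _ _ h => ⟨h.1.symm, h.2.symm⟩⟩
  loopless := ⟨fun _ h => h.1 rfl⟩

lemma gridGraph_adj {n : ℕ} {i j : Fin (n * n * n)} :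
    (gridGraph n).Adj i j ↔ i ≠ j ∧ (fwd n i j ∨ fwd n j i) := Iff.rfl

lemma adjN_iff {n i j : ℕ} (hi : i < n * n * n) (hj : j < n * n * n) :
    adjN n i j ↔ (gridGraph n).Adj ⟨i, hi⟩ ⟨j, hj⟩ := by
  rw [gridGraph_adj]
  unfold adjN
  constructor
  · rintro ⟨-, -, h⟩
    refine ⟨?_, h⟩
    intro he
    rw [Fin.mk.injEq] at he
    subst he
    have hn : 0 < n := by
      rcases Nat.eq_zero_or_pos n with rfl | h0
      · simp at hi
      · exact h0
    have hnn : 0 < n * n := Nat.mul_pos hn hn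
    rcases h with h | h <;> unfold fwd at h <;> omega
  · rintro ⟨-, h⟩
    exact ⟨hi, hj, h⟩

/-- `e` is a pair of numbers whose difference is `d` or `d + 1`. -/
def QLen (N d : ℕ) (e : Sym2 (Fin N)) : Prop :=
  ∃ i j : Fin N, e = s(i, j) ∧ ((j : ℕ) = i + d ∨ (j : ℕ) = i + d + 1)

lemma qLen_or {n : ℕ} {u v : Fin (n * n * n)} (h : (gridGraph n).Adj u v) :
    QLen (n * n * n) n s(u, v) ∨ QLen (n * n * n) (n * n) s(u, v) ∨
      QLen (n * n * n) (n * n + n) s(u, v) := by
  obtain ⟨-, h⟩ := h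
  rcases h with h | h
  · unfold fwd at h
    rcases h with h | h | h
    · exact Or.inl ⟨u, v, rfl, h⟩
    · exact Or.inr (Or.inl ⟨u, v, rfl, h⟩)
    · exact Or.inr (Or.inr ⟨u, v, rfl, by omega⟩)
  · unfold fwd at h
    rcases h with h | h | h
    · exact Or.inl ⟨v, u, Sym2.eq_swap, h⟩
    · exact Or.inr (Or.inl ⟨v, u, Sym2.eq_swap, h⟩)
    · exact Or.inr (Or.inr ⟨v, u, Sym2.eq_swap, by omega⟩)

lemma qLen_len {N d : ℕ} {u v : Fin N} (huv : (u : ℕ) < v) (h : QLen N d s(u, v)) :
    (v : ℕ) = u + d ∨ (v : ℕ) = u + d + 1 := by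
  obtain ⟨i, j, he, hd⟩ := h
  rcases Sym2.eq_iff.1 he with ⟨rfl, rfl⟩ | ⟨rfl, rfl⟩
  · exact hd
  · omega

lemma qLen_nonest {N d : ℕ} {u v x y : Fin N} (h1 : (u : ℕ) < x) (h2 : (x : ℕ) < y)
    (h3 : (y : ℕ) < v) (h4 : QLen N d s(u, v)) (h5 : QLen N d s(x, y)) : False := by
  have h6 := qLen_len (by omega) h4
  have h7 := qLen_len h2 h5
  omega

open Classical in
/-- The queue of an edge. -/
noncomputable def qcol (n : ℕ) (e : Sym2 (Fin (n * n * n))) : Fin 3 :=
  if QLen (n * n * n) n e then 0 else if QLen (n * n * n) (n * n) e then 1 else 2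

lemma qcol_same {n : ℕ} {u v x y : Fin (n * n * n)} (huv : (gridGraph n).Adj u v)
    (hxy : (gridGraph n).Adj x y) (h : qcol n s(u, v) = qcol n s(x, y)) :
    ∃ d, QLen (n * n * n) d s(u, v) ∧ QLen (n * n * n) d s(x, y) := by
  unfold qcol at h
  by_cases c0 : QLen (n * n * n) n s(u, v)
  · by_cases d0 : QLen (n * n * n) n s(x, y)
    · exact ⟨_, c0, d0⟩
    · rw [if_pos c0, if_neg d0] at h
      split_ifs at h <;> exact absurd h (by decide)
  · by_cases d0 : QLen (n * n * n) n s(x, y)
    · rw [if_neg c0, if_pos d0] at h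
      split_ifs at h <;> exact absurd h (by decide)
    · rw [if_neg c0, if_neg d0] at h
      by_cases c1 : QLen (n * n * n) (n * n) s(u, v)
      · by_cases d1 : QLen (n * n * n) (n * n) s(x, y)
        · exact ⟨_, c1, d1⟩
        · rw [if_pos c1, if_neg d1] at h
          exact absurd h (by decide)
      · by_cases d1 : QLen (n * n * n) (n * n) s(x, y)
        · rw [if_neg c1, if_pos d1] at h
          exact absurd h (by decide)
        · refine ⟨n * n + n, ?_, ?_⟩
          · rcases qLen_or huv with h1 | h1 | h1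
            · exact absurd h1 c0
            · exact absurd h1 c1
            · exact h1
          · rcases qLen_or hxy with h1 | h1 | h1
            · exact absurd h1 d0
            · exact absurd h1 d1
            · exact h1

/-- `gridGraph n` has a `3`-queue layout. -/
lemma gridGraph_queue (n : ℕ) : HasQueueLayout (gridGraph n) 3 := by
  refine ⟨inferInstance, fun e => qcol n e.1, ?_⟩
  intro u v x y huv hxy he hN
  obtain ⟨d, h1, h2⟩ := qcol_same huv hxy he
  rcases hN with ⟨a1, a2, a3⟩ | ⟨a1, a2, a3⟩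
  · exact qLen_nonest a1 a2 a3 h1 h2
  · exact qLen_nonest a1 a2 a3 h2 h1

/-- The rank of a vertex in a linear order. -/
noncomputable def rank {V : Type*} [Fintype V] (L : LinearOrder V) (v : V) : ℕ := by
  classical
  exact (Finset.univ.filter (fun w => L.lt w v)).card

lemma rank_lt_rank {V : Type*} [Fintype V] (L : LinearOrder V) {u v : V} (h : L.lt u v) :
    rank L u < rank L v := by
  classical
  unfold rank
  apply Finset.card_lt_card
  rw [Finset.ssubset_iff_of_subset]
  · exact ⟨u, by simpa using h, by simp⟩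
  · intro w hw
    simp only [Finset.mem_filter, Finset.mem_univ, true_and] at hw ⊢
    exact lt_trans hw h

lemma rank_lt_card {V : Type*} [Fintype V] (L : LinearOrder V) (v : V) :
    rank L v < Fintype.card V := by
  classical
  unfold rank
  apply Finset.card_lt_univ_of_notMem (x := v)
  simp

lemma lt_of_rank_lt {V : Type*} [Fintype V] (L : LinearOrder V) {u v : V}
    (h : rank L u < rank L v) : L.lt u v := by
  rcases lt_trichotomy u v with h1 | h1 | h1
  · exact h1
  · subst h1; omega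
  · have := rank_lt_rank L h1
    omega

lemma rank_inj {V : Type*} [Fintype V] (L : LinearOrder V) {u v : V}
    (h : rank L u = rank L v) : u = v := by
  rcases lt_trichotomy u v with h1 | h1 | h1
  · have := rank_lt_rank L h1
    omega
  · exact h1
  · have := rank_lt_rank L h1
    omega

/-- For large `n`, `gridGraph n` has no `s`-stack layout. -/
theorem gridGraph_noStack {n s : ℕ} (hn : 72 * (s + 1) ^ 3 + 10 ≤ n) :
    ¬ HasStackLayout (gridGraph n) s := by
  classical
  rintro ⟨L, σ, hσ⟩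
  let pos : ℕ → ℕ := fun i => if h : i < n * n * n then rank L ⟨i, h⟩ else 0
  let col : ℕ → ℕ → Fin (s + 1) := fun i j =>
    if h : ∃ (hi : i < n * n * n) (hj : j < n * n * n), (gridGraph n).Adj ⟨i, hi⟩ ⟨j, hj⟩ then
      (σ ⟨s(⟨i, h.1⟩, ⟨j, h.2.1⟩), h.2.2⟩).castSucc else 0
  have hpos : ∀ {i} (h : i < n * n * n), pos i = rank L ⟨i, h⟩ := by
    intro i h; simp only [pos, dif_pos h]
  refine no_layout (n := n) (s := s + 1) (pos := pos) (col := col) hn ⟨?_, ?_, ?_⟩
  · intro i j hi hj he
    rw [hpos hi, hpos hj] at he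
    have := rank_inj L he
    simpa using this
  · intro i hi
    rw [hpos hi]
    have := rank_lt_card L (⟨i, hi⟩ : Fin (n * n * n))
    simpa using this
  · intro i j i' j' hij hij' h1 h2 h3 he
    have hi := hij.1
    have hj := hij.2.1
    have hi' := hij'.1
    have hj' := hij'.2.1
    rw [adjN_iff hi hj] at hij
    rw [adjN_iff hi' hj'] at hij'
    have e1 : col i j = (σ ⟨s(⟨i, hi⟩, ⟨j, hj⟩), hij⟩).castSucc := by
      simp only [col]
      rw [dif_pos ⟨hi, hj, hij⟩]
    have e2 : col i' j' = (σ ⟨s(⟨i', hi'⟩, ⟨j', hj'⟩), hij'⟩).castSucc := by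
      simp only [col]
      rw [dif_pos ⟨hi', hj', hij'⟩]
    rw [e1, e2] at he
    have he' := Fin.castSucc_injective _ he
    rw [hpos hi, hpos hi'] at h1
    rw [hpos hi', hpos hj] at h2
    rw [hpos hj, hpos hj'] at h3
    exact hσ _ _ _ _ hij hij' he'
      (Or.inl ⟨lt_of_rank_lt L h1, lt_of_rank_lt L h2, lt_of_rank_lt L h3⟩)

/-- Every finite graph has a stack layout. -/
lemma exists_stackLayout {V : Type*} [Fintype V] [L : LinearOrder V] (G : SimpleGraph V) :
    ∃ k, HasStackLayout G k := by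
  classical
  refine ⟨Fintype.card G.edgeSet, L, Fintype.equivFin G.edgeSet, ?_⟩
  intro u v x y huv hxy he hc
  have h1 : s(u, v) = s(x, y) :=
    congrArg Subtype.val ((Fintype.equivFin G.edgeSet).injective he)
  rcases Sym2.eq_iff.1 h1 with ⟨rfl, rfl⟩ | ⟨rfl, rfl⟩
  · rcases hc with ⟨h2, -, -⟩ | ⟨h2, -, -⟩ <;> exact lt_irrefl _ h2
  · rcases hc with ⟨h2, h3, h4⟩ | ⟨h2, h3, h4⟩
    · exact lt_irrefl _ (lt_trans h2 (lt_trans h3 h4))
    · exact lt_irrefl _ (lt_trans h2 (lt_trans h3 h4))

/-- For every `c` there is a finite graph with queue-number at most `3` and stack-number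
larger than `c`. -/
theorem result : ∀ c : ℕ, ∃ (V : Type) (_ : Fintype V) (G : SimpleGraph V),
    queueNumber G ≤ 3 ∧ c < stackNumber G := by
  intro c
  refine ⟨Fin ((72 * (c + 1) ^ 3 + 10) * (72 * (c + 1) ^ 3 + 10) * (72 * (c + 1) ^ 3 + 10)),
    inferInstance, gridGraph (72 * (c + 1) ^ 3 + 10), Nat.sInf_le (gridGraph_queue _), ?_⟩
  by_contra hcon
  push Not at hcon
  have hmem := Nat.sInf_mem (s := {k | HasStackLayout (gridGraph (72 * (c + 1) ^ 3 + 10)) k})
    (exists_stackLayout _)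
  have h1 : HasStackLayout (gridGraph (72 * (c + 1) ^ 3 + 10))
    (stackNumber (gridGraph (72 * (c + 1) ^ 3 + 10))) := hmem
  refine gridGraph_noStack ?_ h1
  have := Nat.pow_le_pow_left (Nat.succ_le_succ hcon) 3
  simp only [Nat.succ_eq_add_one] at this
  omega

end Pool.Agent.Results.MP_0feef2_co.QueueThree
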